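import Pool.Agent.Y835.SE.Law

/-!
The law for the rows of Maier matrices.
-/

set_option autoImplicit false

namespace Pool.Agent.Y835.SE

open Finset Pool.Agent.Y835.SC Pool.Agent.TH423.SH

open Classical in
theorem law : ∃ (K : ℕ) (c C : ℝ) (X0 : ℕ), 1 ≤ K ∧ 0 < c ∧ c ≤ 1 ∧ 0 < C ∧ ∀ X : ℕ, X0 ≤ X →
    ∃ q₁ : ℕ, 2 ≤ q₁ ∧ ∀ q b H : ℕ, 0 < q → q ^ 16 ≤ X → ¬ q₁ ∣ q →
    (∀ p : ℕ, p.Prime → (p : ℝ) ≤ 3 * Real.log (Real.log X) → p ∣ q) → 2 * H ≤ X →
    c * (min 1 (EE X q b H) * (Real.log X / q)) ≤ ∑ N ∈ (II X K q b).filter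
      (fun N => 1 ≤ rp N H ∧ c * EE X q b H ≤ rp N H), 1 / (N : ℝ) ∧
    ∑ N ∈ (II X K q b).filter (fun N => 1 ≤ rp N H), 1 / (N : ℝ) ≤
      C * (min 1 (EE X q b H) * (Real.log X / q)) := by
  obtain ⟨K, c0, X1, hK, hc0, H1⟩ := one_low
  obtain ⟨C1, X2, hC1, H2⟩ := single K
  obtain ⟨CT, X3, hCT, H3⟩ := tot K
  obtain ⟨C2, X4, hC2, H4⟩ := sm K
  obtain ⟨δ, hδ⟩ : ∃ δ : ℝ, δ = min 1 (min (c0 / (2 * CT)) (c0 ^ 2 / (8 * C2))) := ⟨_, rfl⟩
  have hδ0 : 0 < δ := by rw [hδ]; positivity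
  have hδ1 : δ ≤ 1 := by rw [hδ]; exact min_le_left _ _
  have hδT : δ ≤ c0 / (2 * CT) := by rw [hδ]; exact (min_le_right _ _).trans (min_le_left _ _)
  have hδ2 : δ ≤ c0 ^ 2 / (8 * C2) := by
    rw [hδ]; exact (min_le_right _ _).trans (min_le_right _ _)
  refine ⟨K, δ, max C1 CT, max (max X1 X2) (max (max X3 X4) 3), hK, hδ0, hδ1,
    lt_max_of_lt_left hC1, fun X hX => ?_⟩
  simp only [max_le_iff] at hX
  obtain ⟨⟨x1, x2⟩, ⟨x3, x4⟩, x5⟩ := hX
  obtain ⟨q₁, hq₁, H1'⟩ := H1 X x1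
  refine ⟨q₁, hq₁, fun q b H hq hqX hndvd hsm hHX => ?_⟩
  have hlX : 1 ≤ Real.log X := by
    have h3 : (3 : ℝ) ≤ X := by exact_mod_cast x5
    rw [Real.le_log_iff_exp_le (by linarith)]
    have := Real.exp_one_lt_d9
    linarith
  have hlX0 : 0 < Real.log X := by linarith
  have hq0 : (0 : ℝ) < q := by exact_mod_cast hq
  have hraq := ra_pos hq
  have hφ : (0 : ℝ) < q.totient := by exact_mod_cast Nat.totient_pos.2 hq
  obtain ⟨L, hL⟩ : ∃ L : ℝ, L = Real.log X / q := ⟨_, rfl⟩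
  have hL0 : 0 < L := by rw [hL]; positivity
  obtain ⟨E, hE⟩ : ∃ E : ℝ, E = EE X q b H := ⟨_, rfl⟩
  have hE0 : 0 ≤ E := by rw [hE]; unfold EE; positivity
  have h2 := H4 X x4 q b H hq hqX hsm
  have h3 := H3 X x3 q b hq hqX
  rw [← hE, ← hL] at h2
  rw [← hL] at h3
  rw [← hE, ← hL]
  -- first moment
  have hup : ∑ N ∈ II X K q b, 1 / (N : ℝ) * rp N H ≤ C1 * (L * E) := by
    rw [fm_eq hq x5 hqX]
    refine (sum_le_card_nsmul _ _ _ fun h _ => H2 X x2 q b h hq hqX).trans (le_of_eq ?_)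
    rw [nsmul_eq_mul, hE, hL]
    unfold EE
    field_simp
  have hlow : c0 * (L * E) ≤ ∑ N ∈ II X K q b, 1 / (N : ℝ) * rp N H := by
    rw [fm_eq hq x5 hqX]
    have h5 := card_nsmul_le_sum (Un q b H)
      (fun h => ∑ N ∈ (II X K q b).filter (fun N => (N + h).Prime), 1 / (N : ℝ))
      (c0 / q.totient) (fun h hh => by
        rw [Un, mem_filter, mem_Icc] at hh
        exact H1' q b h hq hqX hndvd (by omega) hh.2)
    refine le_trans (le_of_eq ?_) h5
    rw [nsmul_eq_mul, hE, hL]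
    unfold EE ra
    field_simp
  constructor
  · rcases hE0.eq_or_lt with h0 | hEp
    · rw [← h0]
      have : min (1 : ℝ) 0 = 0 := min_eq_right zero_le_one
      rw [this, zero_mul, mul_zero]
      exact sum_nonneg fun _ _ => by positivity
    obtain ⟨A, hA⟩ : ∃ A, A = (II X K q b).filter (fun N => 1 ≤ rp N H ∧ δ * E ≤ rp N H) :=
      ⟨_, rfl⟩
    rw [← hA]
    have h4 := sum_filter_add_sum_filter_not (II X K q b)
      (fun N => 1 ≤ rp N H ∧ δ * E ≤ rp N H) (fun N => 1 / (N : ℝ) * rp N H)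
    rw [← hA] at h4
    have h5 : ∑ N ∈ (II X K q b).filter (fun N => ¬ (1 ≤ rp N H ∧ δ * E ≤ rp N H)),
        1 / (N : ℝ) * rp N H ≤ c0 / 2 * (L * E) := by
      calc _ ≤ ∑ N ∈ (II X K q b).filter (fun N => ¬ (1 ≤ rp N H ∧ δ * E ≤ rp N H)),
            1 / (N : ℝ) * (δ * E) := by
            refine sum_le_sum fun N hN => ?_
            rw [mem_filter, not_and_or, not_le, not_le] at hN
            refine mul_le_mul_of_nonneg_left ?_ (by positivity)
            rcases hN.2 with h6 | h6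
            · have h7 : rp N H = 0 := by omega
              rw [h7, Nat.cast_zero]
              positivity
            · exact h6.le
        _ ≤ ∑ N ∈ II X K q b, 1 / (N : ℝ) * (δ * E) :=
            sum_le_sum_of_subset_of_nonneg (filter_subset _ _) fun _ _ _ => by positivity
        _ = (∑ N ∈ II X K q b, 1 / (N : ℝ)) * (δ * E) := by rw [sum_mul]
        _ ≤ (CT * L) * (c0 / (2 * CT) * E) := by gcongr
        _ = c0 / 2 * (L * E) := by field_simp
    have h6 : c0 / 2 * (L * E) ≤ ∑ N ∈ A, 1 / (N : ℝ) * rp N H := by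
      have h7 : c0 * (L * E) = c0 / 2 * (L * E) + c0 / 2 * (L * E) := by ring
      linarith
    have h7 : (∑ N ∈ A, 1 / (N : ℝ) * rp N H) ^ 2 ≤
        (∑ N ∈ A, 1 / (N : ℝ)) * ∑ N ∈ A, 1 / (N : ℝ) * (rp N H : ℝ) ^ 2 := by
      apply Finset.sum_sq_le_sum_mul_sum_of_sq_eq_mul
      · intro N _; positivity
      · intro N _; positivity
      · intro N _; ring
    have h8 : ∑ N ∈ A, 1 / (N : ℝ) * (rp N H : ℝ) ^ 2 ≤ C2 * (L * (E + E ^ 2)) := by
      refine le_trans (sum_le_sum_of_subset_of_nonneg ?_ fun _ _ _ => by positivity) h2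
      rw [hA]
      exact filter_subset _ _
    have hS0 : 0 ≤ ∑ N ∈ A, 1 / (N : ℝ) := sum_nonneg fun _ _ => by positivity
    have h9 : (c0 / 2 * (L * E)) ^ 2 ≤ (∑ N ∈ A, 1 / (N : ℝ)) * (C2 * (L * (E + E ^ 2))) := by
      calc (c0 / 2 * (L * E)) ^ 2 ≤ (∑ N ∈ A, 1 / (N : ℝ) * rp N H) ^ 2 :=
            pow_le_pow_left₀ (by positivity) h6 2
        _ ≤ _ := h7
        _ ≤ _ := mul_le_mul_of_nonneg_left h8 hS0
    have h10 : c0 ^ 2 / (4 * C2) * (L * (E / (1 + E))) ≤ ∑ N ∈ A, 1 / (N : ℝ) := by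
      have h11 : 0 < C2 * (L * (E + E ^ 2)) := by positivity
      rw [← div_le_iff₀ h11] at h9
      refine le_trans (le_of_eq ?_) h9
      have : (1 + E) ≠ 0 := by positivity
      have e : E + E ^ 2 = E * (1 + E) := by ring
      rw [e]
      field_simp
      norm_num
    refine le_trans ?_ h10
    have h11 : min 1 E ≤ 2 * (E / (1 + E)) := by
      rw [← mul_div_assoc, le_div_iff₀ (by positivity)]
      rcases le_total 1 E with h12 | h12
      · rw [min_eq_left h12]; linarith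
      · rw [min_eq_right h12]; nlinarith
    have hm0 : 0 ≤ min 1 E := le_min zero_le_one hE0
    calc δ * (min 1 E * L) ≤ c0 ^ 2 / (8 * C2) * (2 * (E / (1 + E)) * L) := by gcongr
      _ = c0 ^ 2 / (4 * C2) * (L * (E / (1 + E))) := by ring
  · have h4 : ∑ N ∈ (II X K q b).filter (fun N => 1 ≤ rp N H), 1 / (N : ℝ) ≤ C1 * (L * E) := by
      refine le_trans ?_ hup
      rw [sum_filter]
      refine sum_le_sum fun N _ => ?_
      split_ifs with h5
      · have : (1 : ℝ) ≤ rp N H := by exact_mod_cast h5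
        exact le_mul_of_one_le_right (by positivity) this
      · positivity
    have h5 : ∑ N ∈ (II X K q b).filter (fun N => 1 ≤ rp N H), 1 / (N : ℝ) ≤ CT * L :=
      le_trans (sum_le_sum_of_subset_of_nonneg (filter_subset _ _) fun _ _ _ => by positivity) h3
    rcases le_total 1 E with h6 | h6
    · rw [min_eq_left h6, one_mul]
      exact h5.trans (mul_le_mul_of_nonneg_right (le_max_right _ _) hL0.le)
    · rw [min_eq_right h6, mul_comm E L]
      exact h4.trans (mul_le_mul_of_nonneg_right (le_max_left _ _) (by positivity))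

open Classical in
/-- the law with proportions -/
theorem law2 : ∃ (K : ℕ) (c C : ℝ) (X0 : ℕ), 1 ≤ K ∧ 0 < c ∧ 0 < C ∧ ∀ X : ℕ, X0 ≤ X →
    ∃ q₁ : ℕ, 2 ≤ q₁ ∧ ∀ q b H : ℕ, 0 < q → q ^ 16 ≤ X → ¬ q₁ ∣ q →
    (∀ p : ℕ, p.Prime → (p : ℝ) ≤ 3 * Real.log (Real.log X) → p ∣ q) → 2 * H ≤ X →
    c * (min 1 (EE X q b H) * ∑ N ∈ II X K q b, 1 / (N : ℝ)) ≤ ∑ N ∈ (II X K q b).filter
      (fun N => 1 ≤ rp N H ∧ c * EE X q b H ≤ rp N H), 1 / (N : ℝ) ∧
    ∑ N ∈ (II X K q b).filter (fun N => 1 ≤ rp N H), 1 / (N : ℝ) ≤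
      C * (min 1 (EE X q b H) * ∑ N ∈ II X K q b, 1 / (N : ℝ)) := by
  obtain ⟨K, c, C, X1, hK, hc, hc1, hC, H1⟩ := law
  obtain ⟨CT, X2, hCT, H2⟩ := tot K
  obtain ⟨c4, X3, hc4, hc41, H3⟩ := unc_low 1 (by norm_num) (by norm_num)
  have hev : ∀ᶠ x : ℝ in Filter.atTop, 2 * (Real.log x ^ 3 + 1) ≤ x := by
    have h1 := Real.isLittleO_pow_log_id_atTop (n := 3)
    filter_upwards [h1.bound (show (0:ℝ) < 1 / 4 by norm_num), Filter.eventually_ge_atTop 4,
      Real.tendsto_log_atTop.eventually_ge_atTop 0] with x h2 hx hl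
    rw [id, Real.norm_of_nonneg (by positivity), Real.norm_of_nonneg (by linarith)] at h2
    linarith
  obtain ⟨X5, hX5⟩ := Filter.eventually_atTop.1
    ((tendsto_natCast_atTop_atTop (R := ℝ)).eventually hev)
  refine ⟨K, min c (c / CT), C / (c * min 1 c4), max (max X1 X2) (max (max X3 X5) 3), hK,
    by positivity, by positivity, fun X hX => ?_⟩
  simp only [max_le_iff] at hX
  obtain ⟨⟨x1, x2⟩, ⟨x3, x5⟩, x4⟩ := hX
  obtain ⟨q₁, hq₁, H1'⟩ := H1 X x1
  refine ⟨q₁, hq₁, fun q b H hq hqX hndvd hsm hHX => ?_⟩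
  obtain ⟨h1, h2⟩ := H1' q b H hq hqX hndvd hsm hHX
  have hlX : 1 ≤ Real.log X := by
    have h3 : (3 : ℝ) ≤ X := by exact_mod_cast x4
    rw [Real.le_log_iff_exp_le (by linarith)]
    have := Real.exp_one_lt_d9
    linarith
  have hlX0 : 0 < Real.log X := by linarith
  have hq0 : (0 : ℝ) < q := by exact_mod_cast hq
  have hφ : (0 : ℝ) < q.totient := by exact_mod_cast Nat.totient_pos.2 hq
  have hqX1 : q ≤ X := (Nat.le_self_pow (by norm_num) q).trans hqX
  have h3 := H2 X x2 q b hq hqX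
  have hE0 : 0 ≤ EE X q b H := by
    have := ra_pos hq
    unfold EE
    positivity
  have hm0 : 0 ≤ min 1 (EE X q b H) := le_min zero_le_one hE0
  obtain ⟨T, hT⟩ : ∃ T : ℝ, T = ∑ N ∈ II X K q b, 1 / (N : ℝ) := ⟨_, rfl⟩
  rw [← hT] at h3
  rw [← hT]
  -- lower bound for the total
  have hTlow : c * min 1 c4 * (Real.log X / q) ≤ T := by
    obtain ⟨H', hH'⟩ : ∃ H' : ℕ, H' = ⌈Real.log X ^ 3⌉₊ := ⟨_, rfl⟩
    have h4 : Real.log X ^ 3 ≤ H' := by rw [hH']; exact Nat.le_ceil _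
    have h5 : (H' : ℝ) < Real.log X ^ 3 + 1 := by
      rw [hH']; exact Nat.ceil_lt_add_one (by positivity)
    have h6 : 2 * H' ≤ X := by
      have := hX5 X x5
      have h7 : (2 * H' : ℝ) ≤ X := by linarith
      exact_mod_cast h7
    have h7 := (H1' q b H' hq hqX hndvd hsm h6).1
    have h8 := H3 X x3 q b H' hq hqX1 (Or.inl (by
      have e : (2 + 1 : ℝ) = ((3 : ℕ) : ℝ) := by norm_num
      rw [e, Real.rpow_natCast]
      exact h4))
    have h9 : c4 ≤ EE X q b H' := by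
      unfold EE
      have h10 : c4 * (H' * ((q.totient : ℝ) / q)) ≤ ((Un q b H').card : ℝ) :=
        h8.trans (le_of_eq (by unfold Un; congr!))
      rw [le_div_iff₀ hlX0]
      calc c4 * Real.log X ≤ c4 * H' := by
            refine mul_le_mul_of_nonneg_left (le_trans ?_ h4) hc4.le
            exact le_self_pow₀ hlX (by norm_num)
        _ = ra q * (c4 * (H' * ((q.totient : ℝ) / q))) := by
            unfold ra
            field_simp
        _ ≤ _ := mul_le_mul_of_nonneg_left h10 (ra_pos hq).le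
    have h10 : min 1 c4 ≤ min 1 (EE X q b H') := min_le_min le_rfl h9
    calc c * min 1 c4 * (Real.log X / q) ≤ c * (min 1 (EE X q b H') * (Real.log X / q)) := by
          rw [mul_assoc]
          gcongr
      _ ≤ _ := h7
      _ ≤ T := by
          rw [hT]
          exact sum_le_sum_of_subset_of_nonneg (filter_subset _ _) fun _ _ _ => by positivity
  constructor
  · have h4 : min c (c / CT) * (min 1 (EE X q b H) * T) ≤
        c * (min 1 (EE X q b H) * (Real.log X / q)) := by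
      calc min c (c / CT) * (min 1 (EE X q b H) * T) ≤
            c / CT * (min 1 (EE X q b H) * (CT * (Real.log X / q))) := by
            refine mul_le_mul (min_le_right _ _) (mul_le_mul_of_nonneg_left h3 hm0)
              (mul_nonneg hm0 ?_) (by positivity)
            rw [hT]
            exact sum_nonneg fun _ _ => by positivity
        _ = _ := by field_simp
    refine h4.trans (h1.trans ?_)
    refine sum_le_sum_of_subset_of_nonneg (fun N hN => ?_) fun _ _ _ => by positivity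
    rw [mem_filter] at hN ⊢
    exact ⟨hN.1, hN.2.1, le_trans (mul_le_mul_of_nonneg_right (min_le_left _ _) hE0) hN.2.2⟩
  · refine h2.trans ?_
    have h5 : 0 < c * min 1 c4 := by positivity
    calc C * (min 1 (EE X q b H) * (Real.log X / q)) =
          C / (c * min 1 c4) * (min 1 (EE X q b H) * (c * min 1 c4 * (Real.log X / q))) := by
          field_simp
      _ ≤ _ := by gcongr

end Pool.Agent.Y835.SE
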