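import Pool.Agent.Y835.SE.Pair

/-!
The order of magnitude of the proportion of the rows of a Maier matrix which contain a prime.
-/

set_option autoImplicit false

namespace Pool.Agent.Y835.SE

open Finset Pool.Agent.Y835.SC Pool.Agent.TH423.SH

open Classical in
theorem one_low : ∃ (K : ℕ) (c : ℝ) (X0 : ℕ), 1 ≤ K ∧ 0 < c ∧ ∀ X : ℕ, X0 ≤ X → ∃ q₁ : ℕ,
    2 ≤ q₁ ∧ ∀ q b h : ℕ, 0 < q → q ^ 16 ≤ X → ¬ q₁ ∣ q → 2 * h ≤ X → (b + h).Coprime q →
    c / q.totient ≤ ∑ N ∈ (II X K q b).filter (fun N => (N + h).Prime), 1 / (N : ℝ) := by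
  obtain ⟨K, cP, hK, hcP, XP, HP⟩ := page
  refine ⟨K, cP, max XP 3, hK, hcP, fun X hX => ?_⟩
  have hXP : XP ≤ X := (le_max_left _ _).trans hX
  have hX3 : 3 ≤ X := (le_max_right _ _).trans hX
  obtain ⟨q₁, hq₁, H1⟩ := HP X hXP
  refine ⟨q₁, hq₁, fun q b h hq hqX hndvd hHX hh => ?_⟩
  have h1 := H1 q (b + h) hq hqX hndvd hh
  refine h1.trans ?_
  obtain ⟨S, hS⟩ : ∃ S, S = (Ioc X (X ^ K)).filter (fun p => p.Prime ∧ p ≡ b + h [MOD q]) :=
    ⟨_, rfl⟩
  rw [← hS]
  have hSm : ∀ p ∈ S, X < p ∧ p ≤ X ^ K ∧ p.Prime ∧ p ≡ b + h [MOD q] := fun p hp => by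
    rw [hS, mem_filter, mem_Ioc] at hp
    exact ⟨hp.1.1, hp.1.2, hp.2⟩
  have h3 : ∑ p ∈ S, (1 : ℝ) / p ≤ ∑ p ∈ S, (1 : ℝ) / ((p - h : ℕ) : ℝ) := by
    refine sum_le_sum fun p hp => ?_
    have h4 := hSm p hp
    refine one_div_le_one_div_of_le ?_ ?_
    · exact_mod_cast (by omega : 0 < p - h)
    · exact_mod_cast Nat.sub_le _ _
  have h4 : ∑ p ∈ S, (1 : ℝ) / ((p - h : ℕ) : ℝ) = ∑ N ∈ S.image (fun p => p - h), 1 / (N : ℝ) := by
    rw [sum_image]
    intro p hp p' hp' heq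
    have h5 := hSm p (mem_coe.1 hp)
    have h6 := hSm p' (mem_coe.1 hp')
    simp only at heq
    omega
  rw [h4] at h3
  refine h3.trans (sum_le_sum_of_subset_of_nonneg (fun N hN => ?_) fun _ _ _ => by positivity)
  rw [mem_image] at hN
  obtain ⟨p, hp, rfl⟩ := hN
  obtain ⟨h5, h6, h7, h8⟩ := hSm p hp
  rw [mem_filter, mem_II]
  have h9 : p - h + h = p := by omega
  refine ⟨⟨⟨by omega, by omega⟩, ?_⟩, by rw [h9]; exact h7⟩
  have h10 : p - h + h ≡ b + h [MOD q] := by rw [h9]; exact h8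
  exact Nat.ModEq.add_right_cancel' h h10

theorem two_q {X q : ℕ} (hX : 3 ≤ X) (hqX : q ^ 16 ≤ X) : 2 * q ≤ X := by
  rcases Nat.lt_or_ge q 2 with h | h
  · omega
  · calc 2 * q ≤ q * q := Nat.mul_le_mul_right _ h
      _ = q ^ 2 := (sq q).symm
      _ ≤ q ^ 16 := Nat.pow_le_pow_right (by omega) (by norm_num)
      _ ≤ X := hqX

open Classical in
theorem fm_eq {X K q b H : ℕ} (hq : 0 < q) (hX : 3 ≤ X) (hqX : q ^ 16 ≤ X) :
    ∑ N ∈ II X K q b, 1 / (N : ℝ) * rp N H =
      ∑ h ∈ Un q b H, ∑ N ∈ (II X K q b).filter (fun N => (N + h).Prime), 1 / (N : ℝ) := by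
  have h1 : ∑ N ∈ II X K q b, 1 / (N : ℝ) * rp N H =
      ∑ h ∈ Un q b H, ∑ N ∈ II X K q b, 1 / (N : ℝ) * (if (N + h).Prime then (1 : ℝ) else 0) := by
    rw [sum_comm]
    refine sum_congr rfl fun N hN => ?_
    rw [rp_eq hq (two_q hX hqX) hN, mul_sum]
  rw [h1]
  refine sum_congr rfl fun h _ => ?_
  rw [sum_filter]
  refine sum_congr rfl fun N _ => ?_
  split_ifs <;> simp

open Classical in
theorem sm_eq {X K q b H : ℕ} (hq : 0 < q) (hX : 3 ≤ X) (hqX : q ^ 16 ≤ X) :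
    ∑ N ∈ II X K q b, 1 / (N : ℝ) * (rp N H : ℝ) ^ 2 =
      ∑ h ∈ Un q b H, ∑ h' ∈ Un q b H,
        ∑ N ∈ (II X K q b).filter (fun N => (N + h).Prime ∧ (N + h').Prime), 1 / (N : ℝ) := by
  have h5 : ∀ N ∈ II X K q b, 1 / (N : ℝ) * (rp N H : ℝ) ^ 2 =
      ∑ h ∈ Un q b H, ∑ h' ∈ Un q b H, 1 / (N : ℝ) * ((if (N + h).Prime then (1 : ℝ) else 0) *
        (if (N + h').Prime then (1 : ℝ) else 0)) := by
    intro N hN
    rw [rp_eq hq (two_q hX hqX) hN, sq, sum_mul_sum, mul_sum]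
    refine sum_congr rfl fun h _ => ?_
    rw [mul_sum]
  rw [sum_congr rfl h5, sum_comm]
  refine sum_congr rfl fun h _ => ?_
  rw [sum_comm]
  refine sum_congr rfl fun h' _ => ?_
  rw [sum_filter]
  refine sum_congr rfl fun N _ => ?_
  by_cases h5 : (N + h).Prime <;> by_cases h6 : (N + h').Prime <;> simp [h5, h6]

/-- the expected number of primes, up to constants -/
noncomputable def EE (X q b H : ℕ) : ℝ := ra q * ((Un q b H).card : ℝ) / Real.log X

open Classical in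
/-- the second moment -/
theorem sm (K : ℕ) : ∃ (C : ℝ) (X0 : ℕ), 0 < C ∧ ∀ X : ℕ, X0 ≤ X → ∀ q b H : ℕ, 0 < q →
    q ^ 16 ≤ X → (∀ p : ℕ, p.Prime → (p : ℝ) ≤ 3 * Real.log (Real.log X) → p ∣ q) →
    ∑ N ∈ II X K q b, 1 / (N : ℝ) * (rp N H : ℝ) ^ 2 ≤
      C * (Real.log X / q * (EE X q b H + EE X q b H ^ 2)) := by
  obtain ⟨C1, X1, hC1, H1⟩ := single K
  obtain ⟨C2, X2, hC2, H2⟩ := pairl2 K
  obtain ⟨C3, X3, hC3, H3⟩ := second K
  obtain ⟨c4, X4, hc4, hc41, H4⟩ := unc_low (1 / 2) (by norm_num) (by norm_num)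
  have hev := ((Real.tendsto_log_atTop.comp Real.tendsto_log_atTop).comp
    (tendsto_natCast_atTop_atTop (R := ℝ))).eventually_ge_atTop 2
  obtain ⟨X5, hX5⟩ := Filter.eventually_atTop.1 hev
  refine ⟨max (C1 + C2) (C3 / c4 ^ 2), max (max (max X1 X2) (max X3 X4)) (max X5 3),
    lt_max_of_lt_left (by positivity), ?_⟩
  intro X hX q b H hq hqX hsm
  simp only [max_le_iff] at hX
  obtain ⟨⟨⟨x1, x2⟩, x3, x4⟩, x5, x6⟩ := hX
  have h5 := hX5 X x5
  simp only [Function.comp_apply] at h5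
  have hlX : 1 ≤ Real.log X := by
    have h3 : (3 : ℝ) ≤ X := by exact_mod_cast x6
    rw [Real.le_log_iff_exp_le (by linarith)]
    have := Real.exp_one_lt_d9
    linarith
  have hlX0 : 0 < Real.log X := by linarith
  have hqX1 : q ≤ X := (Nat.le_self_pow (by norm_num) q).trans hqX
  have hq0 : (0 : ℝ) < q := by exact_mod_cast hq
  have hraq := ra_pos hq
  have hE0 : 0 ≤ EE X q b H := by unfold EE; positivity
  have hL0 : 0 < Real.log X / q := by positivity
  rcases le_or_gt (Real.log X ^ (2 + 1 / 2 : ℝ)) H with hc | hc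
  · -- long intervals
    have h6 := H4 X x4 q b H hq hqX1 (Or.inl hc)
    have hH : Real.log X ≤ H := by
      refine le_trans ?_ hc
      calc Real.log X = Real.log X ^ (1 : ℝ) := (Real.rpow_one _).symm
        _ ≤ _ := Real.rpow_le_rpow_of_exponent_le hlX (by norm_num)
    have h7 := H3 X x3 q b H hq hqX hH
    have h8 : c4 * (H * ((q.totient : ℝ) / q)) ≤ ((Un q b H).card : ℝ) := h6.trans (le_of_eq (by
      unfold Un
      congr!))
    have h9 : c4 * (H / Real.log X) ≤ EE X q b H := by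
      unfold EE
      have hφ : (0 : ℝ) < q.totient := by exact_mod_cast Nat.totient_pos.2 hq
      calc c4 * (H / Real.log X) = ra q * (c4 * (H * ((q.totient : ℝ) / q))) / Real.log X := by
            unfold ra
            field_simp
        _ ≤ _ := by gcongr
    have hH0 : (0 : ℝ) ≤ H := by linarith
    have h10 : (c4 * (H / Real.log X)) ^ 2 ≤ EE X q b H ^ 2 :=
      pow_le_pow_left₀ (by positivity) h9 2
    refine h7.trans ?_
    calc C3 * ((H : ℝ) ^ 2 / (q * Real.log X)) =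
          C3 / c4 ^ 2 * (Real.log X / q * (c4 * (H / Real.log X)) ^ 2) := by field_simp
      _ ≤ C3 / c4 ^ 2 * (Real.log X / q * EE X q b H ^ 2) := by gcongr
      _ ≤ max (C1 + C2) (C3 / c4 ^ 2) *
          (Real.log X / q * (EE X q b H + EE X q b H ^ 2)) := by
          refine mul_le_mul (le_max_right _ _) ?_ (by positivity)
            (le_trans (by positivity) (le_max_left _ _))
          exact mul_le_mul_of_nonneg_left (by linarith) hL0.le
  · -- short intervals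
    have hlH : ∀ h ∈ Un q b H, ∀ h' ∈ Un q b H, h' ≠ h →
        Real.log (Nat.dist h h') ≤ 3 * Real.log (Real.log X) - 1 := by
      intro h hh h' hh' hne
      have h6 := mem_Icc.1 (mem_filter.1 hh).1
      have h7 := mem_Icc.1 (mem_filter.1 hh').1
      have h8 : 1 ≤ Nat.dist h h' := by
        rw [Nat.one_le_iff_ne_zero]
        exact fun h5 => hne (Nat.eq_of_dist_eq_zero h5).symm
      have h9 : Nat.dist h h' ≤ H := by
        rcases le_total h h' with h5 | h5
        · rw [Nat.dist_eq_sub_of_le h5]; omega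
        · rw [Nat.dist_eq_sub_of_le_right h5]; omega
      have h10 : Real.log (Nat.dist h h') ≤ Real.log (Real.log X ^ (2 + 1 / 2 : ℝ)) := by
        refine Real.log_le_log (by exact_mod_cast h8) ?_
        exact le_trans (by exact_mod_cast h9) hc.le
      rw [Real.log_rpow hlX0] at h10
      linarith
    rw [sm_eq hq x6 hqX]
    have e3 : ∀ h ∈ Un q b H, ∑ h' ∈ Un q b H,
        ∑ N ∈ (II X K q b).filter (fun N => (N + h).Prime ∧ (N + h').Prime), 1 / (N : ℝ) ≤
        C1 * (ra q / q) + ((Un q b H).card : ℝ) * (C2 * (ra q ^ 2 / (q * Real.log X))) := by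
      intro h hh
      rw [← add_sum_erase _ _ hh]
      refine add_le_add ?_ ?_
      · refine le_trans (le_of_eq ?_) (H1 X x1 q b h hq hqX)
        refine sum_congr (filter_congr fun N _ => and_self_iff) fun _ _ => rfl
      · have h6 := sum_le_card_nsmul ((Un q b H).erase h) _ (C2 * (ra q ^ 2 / (q * Real.log X)))
          (fun h' hh' => H2 X x2 q b h h' hq hqX hsm (mem_erase.1 hh').1
            (hlH h hh h' (mem_erase.1 hh').2 (mem_erase.1 hh').1))
        refine h6.trans ?_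
        rw [nsmul_eq_mul]
        refine mul_le_mul_of_nonneg_right ?_ (by positivity)
        exact_mod_cast card_le_card (erase_subset _ _)
    refine (sum_le_card_nsmul _ _ _ e3).trans ?_
    rw [nsmul_eq_mul]
    obtain ⟨u, hu⟩ : ∃ u : ℝ, u = ((Un q b H).card : ℝ) := ⟨_, rfl⟩
    have hu0 : 0 ≤ u := by rw [hu]; positivity
    rw [← hu]
    have e4 : u * (C1 * (ra q / q) + u * (C2 * (ra q ^ 2 / (q * Real.log X)))) =
        C1 * (Real.log X / q * EE X q b H) + C2 * (Real.log X / q * EE X q b H ^ 2) := by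
      unfold EE
      rw [← hu]
      field_simp
    rw [e4]
    have h6 : 0 ≤ Real.log X / q * EE X q b H := by positivity
    have h7 : 0 ≤ Real.log X / q * EE X q b H ^ 2 := by positivity
    calc C1 * (Real.log X / q * EE X q b H) + C2 * (Real.log X / q * EE X q b H ^ 2) ≤
          (C1 + C2) * (Real.log X / q * (EE X q b H + EE X q b H ^ 2)) := by nlinarith
      _ ≤ _ := mul_le_mul_of_nonneg_right (le_max_left _ _) (by positivity)

end Pool.Agent.Y835.SE
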