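import Pool.Agent.Y835.SC.Fin3

/-!
Pairs of primes in a residue class modulo `q` if all small primes divide `q`.
-/

set_option autoImplicit false

namespace Pool.Agent.Y835.SE

open Finset Pool.Agent.Y835.SC Pool.Agent.TH423.SH

/-- the part of `D` prime to `q` -/
def cop (D q : ℕ) : ℕ := ∏ p ∈ D.primeFactors.filter (fun p => ¬ p ∣ q), p

theorem cop_pf (D q : ℕ) : (cop D q).primeFactors = D.primeFactors.filter (fun p => ¬ p ∣ q) := by
  unfold cop
  exact Nat.primeFactors_prod fun p hp => Nat.prime_of_mem_primeFactors (mem_filter.1 hp).1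

theorem cop_pos (D q : ℕ) : 1 ≤ cop D q :=
  Nat.succ_le_of_lt (prod_pos fun _ hp => (Nat.prime_of_mem_primeFactors (mem_filter.1 hp).1).pos)

theorem cop_le {D : ℕ} (hD : 1 ≤ D) (q : ℕ) : cop D q ≤ D := by
  refine Nat.le_of_dvd hD ?_
  unfold cop
  refine (prod_dvd_prod_of_subset _ _ _ (filter_subset _ _)).trans (Nat.prod_primeFactors_dvd D)

theorem ra_cop : ∃ X0 : ℕ, ∀ X : ℕ, X0 ≤ X → ∀ q : ℕ,
    (∀ p : ℕ, p.Prime → (p : ℝ) ≤ 3 * Real.log (Real.log X) → p ∣ q) → ∀ D : ℕ, 1 ≤ D →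
    Real.log D ≤ 3 * Real.log (Real.log X) - 1 → ra (cop D q) ≤ 8 := by
  have hev := ((Real.tendsto_log_atTop.comp Real.tendsto_log_atTop).comp
    (tendsto_natCast_atTop_atTop (R := ℝ))).eventually_ge_atTop 1
  obtain ⟨X0, hX0⟩ := Filter.eventually_atTop.1 hev
  refine ⟨X0, fun X hX q hq D hD hlD => ?_⟩
  have h1 := hX0 X hX
  simp only [Function.comp_apply] at h1
  obtain ⟨x, hx⟩ : ∃ x : ℝ, x = 3 * Real.log (Real.log X) := ⟨_, rfl⟩
  rw [← hx] at hq hlD
  have hx3 : 3 ≤ x := by rw [hx]; linarith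
  obtain ⟨y, hy⟩ : ∃ y : ℕ, y = ⌊x⌋₊ := ⟨_, rfl⟩
  have hyx : (y : ℝ) ≤ x := by rw [hy]; exact Nat.floor_le (by linarith)
  have hxy : x < y + 1 := by rw [hy]; exact Nat.lt_floor_add_one x
  have hy3 : 3 ≤ y := by rw [hy]; exact Nat.le_floor (by exact_mod_cast hx3)
  have h2 := big_V (q := cop D q) (y := y) (cop_pos D q) (ℓ := x - 1) (by
    refine le_trans ?_ hlD
    exact Real.log_le_log (by exact_mod_cast cop_pos D q) (by exact_mod_cast cop_le hD q)) hy3
    (by linarith)
  have h3 : (cop D q).primeFactors.filter (fun p => y < p) = (cop D q).primeFactors := by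
    refine filter_true_of_mem fun p hp => ?_
    rw [cop_pf, mem_filter] at hp
    by_contra hc
    rw [not_lt] at hc
    refine hp.2 (hq p (Nat.prime_of_mem_primeFactors hp.1) ?_)
    have : (p : ℝ) ≤ y := by exact_mod_cast hc
    linarith
  rw [h3, ra_V (cop_pos D q)] at h2
  have h4 := ra_pos (cop_pos D q)
  have h5 : 1 / 8 * ra (cop D q) ≤ 1 := by
    calc 1 / 8 * ra (cop D q) ≤ (ra (cop D q))⁻¹ * ra (cop D q) :=
          mul_le_mul_of_nonneg_right h2 h4.le
      _ = 1 := inv_mul_cancel₀ h4.ne'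
  linarith

open Classical in
theorem pairl2 (K : ℕ) : ∃ (C : ℝ) (X0 : ℕ), 0 < C ∧ ∀ X : ℕ, X0 ≤ X → ∀ q b h h' : ℕ, 1 ≤ q →
    q ^ 16 ≤ X → (∀ p : ℕ, p.Prime → (p : ℝ) ≤ 3 * Real.log (Real.log X) → p ∣ q) → h' ≠ h →
    Real.log (Nat.dist h h') ≤ 3 * Real.log (Real.log X) - 1 →
    ∑ N ∈ (II X K q b).filter (fun N => (N + h).Prime ∧ (N + h').Prime), 1 / (N : ℝ) ≤
      C * (ra q ^ 2 / (q * Real.log X)) := by
  obtain ⟨W0, C, hW0, hC, X0, H⟩ := sieve_log 2 K
  obtain ⟨X1, H8⟩ := ra_cop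
  refine ⟨C * 64, max (max X0 X1) 3, by positivity, fun X hX q b h h' hq hqX hsm hne hld => ?_⟩
  obtain ⟨R, hR, H2⟩ := H X ((le_max_left _ _).trans ((le_max_left _ _).trans hX))
  have hX3 : 3 ≤ X := (le_max_right _ _).trans hX
  have hlX : 0 < Real.log X := Real.log_pos (by exact_mod_cast (by omega : 1 < X))
  have hk : 1 ≤ Nat.dist h h' := by
    rw [Nat.one_le_iff_ne_zero]
    exact fun h5 => hne (Nat.eq_of_dist_eq_zero h5).symm
  have hra := H8 X ((le_max_right _ _).trans ((le_max_left _ _).trans hX)) q hsm _ hk hld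
  have h1 := H2 q (cop (Nat.dist h h') q) b hq hqX (cop_pos _ _)
    (fun p => (range p).filter (fun c => p ∣ h + c) ∪ (range p).filter (fun c => p ∣ h' + c))
    (fun p hp => by
    have hpp : p.Prime := (mem_filter.1 hp).2.1
    have hpn : ¬ p ∣ Nat.dist h h' := fun hd => by
      apply (mem_filter.1 hp).2.2
      by_cases hpq : p ∣ q
      · exact (hpq.mul_right _).mul_left W0
      · have h5 : p ∈ (cop (Nat.dist h h') q).primeFactors := by
          rw [cop_pf, mem_filter, Nat.mem_primeFactors]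
          exact ⟨⟨hpp, hd, by omega⟩, hpq⟩
        exact ((Nat.dvd_of_mem_primeFactors h5).mul_left q).mul_left W0
    refine ⟨hpp.two_le, fun _ => ?_, fun c hc => ?_⟩
    · rw [card_union_of_disjoint, Pool.Agent.Y835.SB.one_class' hpp h _,
        Pool.Agent.Y835.SB.one_class' hpp h' _]
      rw [disjoint_left]
      intro c hc hc'
      have h3 := (mem_filter.1 hc).2
      have h4 := (mem_filter.1 hc').2
      apply hpn
      rcases le_total h h' with h5 | h5
      · rw [Nat.dist_eq_sub_of_le h5]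
        have h6 := Nat.dvd_sub h4 h3
        have h7 : h' + c - (h + c) = h' - h := by omega
        rwa [h7] at h6
      · rw [Nat.dist_eq_sub_of_le_right h5]
        have h6 := Nat.dvd_sub h3 h4
        have h7 : h + c - (h' + c) = h - h' := by omega
        rwa [h7] at h6
    · rcases mem_union.1 hc with h3 | h3
      · exact mem_range.1 (mem_filter.1 h3).1
      · exact mem_range.1 (mem_filter.1 h3).1)
  have h2 : (II X K q b).filter (fun N => (N + h).Prime ∧ (N + h').Prime) ⊆
      (Ioc (X / 2) (X ^ K)).filter (fun N => N % q = b % q ∧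
      ∀ p ∈ PS (W0 * (q * cop (Nat.dist h h') q)) R, N % p ∉
        (range p).filter (fun c => p ∣ h + c) ∪ (range p).filter (fun c => p ∣ h' + c)) := by
    intro N hN
    rw [mem_filter, mem_II] at hN
    rw [mem_filter, mem_Ioc]
    refine ⟨hN.1.1, hN.1.2, fun p hp hmem => ?_⟩
    have hpp := (mem_filter.1 hp).2.1
    have hpR := (mem_Icc.1 (mem_filter.1 hp).1).2
    have key : ∀ g : ℕ, (N + g).Prime → N % p ∈ (range p).filter (fun c => p ∣ g + c) → False := by
      intro g hg hgm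
      have h3 := (mem_filter.1 hgm).2
      have h4 : p ∣ N + g := by
        have h5 : N + g = p * (N / p) + (g + N % p) := by
          have := Nat.mod_add_div N p
          omega
        rw [h5]
        exact dvd_add (dvd_mul_right _ _) h3
      have h5 := (Nat.prime_dvd_prime_iff_eq hpp hg).1 h4
      omega
    rcases mem_union.1 hmem with h3 | h3
    · exact key h hN.2.1 h3
    · exact key h' hN.2.2 h3
  refine (sum_le_sum_of_subset_of_nonneg h2 fun _ _ _ => by positivity).trans (h1.trans ?_)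
  have hq0 : (0 : ℝ) < q := by exact_mod_cast hq
  have hr1 := ra_pos hq
  have hr2 := ra_pos (cop_pos (Nat.dist h h') q)
  have e1 : C * (ra q * ra (cop (Nat.dist h h') q)) ^ 2 * Real.log X / (q * Real.log X ^ 2) =
      C * (ra q ^ 2 / (q * Real.log X)) * ra (cop (Nat.dist h h') q) ^ 2 := by
    field_simp
  rw [e1]
  have h3 : ra (cop (Nat.dist h h') q) ^ 2 ≤ 64 := by nlinarith
  calc C * (ra q ^ 2 / (q * Real.log X)) * ra (cop (Nat.dist h h') q) ^ 2 ≤
        C * (ra q ^ 2 / (q * Real.log X)) * 64 := mul_le_mul_of_nonneg_left h3 (by positivity)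
    _ = _ := by ring

end Pool.Agent.Y835.SE
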